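import Pool.Agent.W198.TC.Main
import Pool.Agent.W352.TCF.Count

/-!
# Upper bounds for the number of close pairs of zeros from triple correlation, under RH

For small `β ≥ 0` the number `N(T; -β, β)` of pairs of ordinates in `(0, T]` at distance at most
`β` times the mean spacing is at most `(1 + v / (v + D(β)²) + ε) (T/2π) log T`, with `v = 0.1208`
and `D(β) = 2 (53/60 - 79 π² β² / 600)² - 1.037`.
-/

open Complex

namespace Pool.Agent.Results.MP_103a5c_nt.ClosePairsTriple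

/-- the nontrivial zeros of `ζ` with ordinate in `(0, T]` -/
def zeros (T : ℝ) : Set ℂ :=
  {s : ℂ | 0 < s.re ∧ s.re < 1 ∧ 0 < s.im ∧ s.im ≤ T ∧ riemannZeta s = 0}

/-- the multiplicity of `s` as a zero of `ζ` -/
noncomputable def mult (s : ℂ) : ℕ := analyticOrderNatAt riemannZeta s

/-- `N(T; α, β)`: the number of ordered pairs of zeros (counted with multiplicity, the diagonal
included) with ordinates in `(0, T]` whose difference lies in `[2πα / log T, 2πβ / log T]` -/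
noncomputable def N (T α β : ℝ) : ℕ :=
  ∑ᶠ s ∈ zeros T, ∑ᶠ s' ∈ {s' : ℂ | s' ∈ zeros T ∧
    2 * Real.pi * α / Real.log T ≤ s.im - s'.im ∧ s.im - s'.im ≤ 2 * Real.pi * β / Real.log T},
      mult s * mult s'

/-- lower bound of the kernel at the distance `β` -/
noncomputable def G (β : ℝ) : ℝ := (53 / 60 - 79 / 600 * Real.pi ^ 2 * β ^ 2) ^ 2

lemma zeros_finite (T : ℝ) : (zeros T).Finite := H370.zeta_zeros_finite T

lemma inj_im (hRH : RiemannHypothesis) {T : ℝ} {S : Finset ℂ} (hS : S ⊆ H343.ZSide.Z0 T) :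
    Set.InjOn Complex.im (S : Set ℂ) := by
  intro s hs s' hs' h
  have h1 := TC.GlobAux.mem_Z0.mp (hS hs)
  have h2 := TC.GlobAux.mem_Z0.mp (hS hs')
  apply Complex.ext
  · rw [TC.GlobAux.re_half hRH h1.1 h1.2.1 h1.2.2.2.2, TC.GlobAux.re_half hRH h2.1 h2.2.1 h2.2.2.2.2]
  · exact h

lemma mu_im (hRH : RiemannHypothesis) {T : ℝ} {s : ℂ} (hs : s ∈ H343.ZSide.Z0 T) :
    TC.mu s.im = mult s := by
  have h1 := TC.GlobAux.mem_Z0.mp hs
  unfold TC.mu
  rw [TC.GlobAux.eq_half hRH h1.1 h1.2.1 h1.2.2.2.2]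
  rfl

lemma N_eq (hRH : RiemannHypothesis) (T β : ℝ) :
    N T (-β) β = ∑ g ∈ TC.ordT T, TC.mu g *
      TC.kk (TC.ordT T) TC.mu (2 * Real.pi * β / Real.log T) g := by
  classical
  unfold N
  rw [finsum_mem_eq_finite_toFinset_sum _ (zeros_finite T)]
  unfold TC.ordT
  rw [Finset.sum_image (inj_im hRH (Finset.Subset.refl _))]
  apply Finset.sum_congr rfl
  intro s hs
  have hfin : {s' : ℂ | s' ∈ zeros T ∧
      2 * Real.pi * (-β) / Real.log T ≤ s.im - s'.im ∧
      s.im - s'.im ≤ 2 * Real.pi * β / Real.log T}.Finite :=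
    (zeros_finite T).subset fun _ h => h.1
  rw [finsum_mem_eq_finite_toFinset_sum _ hfin, ← Finset.mul_sum, mu_im hRH hs]
  congr 1
  unfold TC.kk
  rw [Finset.filter_image, Finset.sum_image (inj_im hRH (Finset.filter_subset _ _))]
  apply Finset.sum_congr
  · ext s'
    rw [Set.Finite.mem_toFinset, Finset.mem_filter, TC.GlobAux.mem_Z0, abs_le]
    have e1 : 2 * Real.pi * (-β) / Real.log T = -(2 * Real.pi * β / Real.log T) := by
      ring
    rw [Set.mem_ofPred_eq, e1]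
    constructor
    · rintro ⟨h1, h2, h3⟩
      exact ⟨h1, by linarith, by linarith⟩
    · rintro ⟨h1, h2, h3⟩
      exact ⟨h1, by linarith, by linarith⟩
  · intro s' hs'
    exact (mu_im hRH (Finset.mem_filter.mp hs').1).symm

lemma sq_le_N (hRH : RiemannHypothesis) (T β : ℝ) (hT : 1 < T) (hβ : 0 ≤ β) :
    ∑ᶠ s ∈ zeros T, ((mult s : ℝ)) ^ 2 ≤ (N T (-β) β : ℝ) := by
  classical
  have hlog : 0 < Real.log T := Real.log_pos hT
  have hw : 0 ≤ 2 * Real.pi * β / Real.log T := by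
    have := Real.pi_pos
    positivity
  rw [N_eq hRH, finsum_mem_eq_finite_toFinset_sum _ (zeros_finite T)]
  push_cast
  unfold TC.ordT
  rw [Finset.sum_image (inj_im hRH (Finset.Subset.refl _))]
  apply Finset.sum_le_sum
  intro s hs
  rw [mu_im hRH hs, sq]
  refine mul_le_mul_of_nonneg_left ?_ (Nat.cast_nonneg _)
  have h1 : mult s ≤ TC.kk (Finset.image Complex.im (H343.ZSide.Z0 T)) TC.mu
      (2 * Real.pi * β / Real.log T) s.im := by
    unfold TC.kk
    rw [← mu_im hRH hs]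
    refine Finset.single_le_sum (f := fun g => TC.mu g) (fun _ _ => Nat.zero_le _) ?_
    rw [Finset.mem_filter]
    refine ⟨Finset.mem_image_of_mem _ hs, ?_⟩
    rw [sub_self, abs_zero]
    exact hw
  exact_mod_cast h1

lemma bound (hRH : RiemannHypothesis) (β : ℝ) (hβ : 0 ≤ β)
    (h1 : 0 < 53 / 60 - 79 / 600 * Real.pi ^ 2 * β ^ 2) (h2 : 1 / 8 ≤ 2 * G β - 1037 / 1000)
    (ε : ℝ) (hε : 0 < ε) : ∃ T₀ : ℝ, ∀ T : ℝ, T₀ ≤ T →
      (N T (-β) β : ℝ) ≤ (1 + (151 / 1250) / (151 / 1250 + (2 * G β - 1037 / 1000) ^ 2) + ε) *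
        (T / (2 * Real.pi) * Real.log T) := by
  have hpi := Real.pi_pos
  have hQ : TC.Qx (2 * Real.pi * β) = G β := by
    unfold TC.Qx G
    ring
  have hv : TC.vv = 151 / 1250 := by unfold TC.vv; norm_num
  have hE : TC.EE = 1037 / 1000 := rfl
  obtain ⟨T1, hT1⟩ := TC.close_pairs hRH (2 * Real.pi * β) (by positivity)
    (by rw [show 79 / 2400 * (2 * Real.pi * β) ^ 2 = 79 / 600 * Real.pi ^ 2 * β ^ 2 by ring]
        exact h1)
    (by rw [hQ, hv, hE]
        refine le_trans ?_ h2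
        norm_num) (ε / 2) (by positivity)
  obtain ⟨T2, hT2, hT2'⟩ := Pool.Agent.W352.TCF.sum_mu_le hRH (ε / 2) (by positivity)
  refine ⟨max T1 T2, fun T hT => ?_⟩
  have hTT1 : T1 ≤ T := (le_max_left _ _).trans hT
  have hTT2 : T2 ≤ T := (le_max_right _ _).trans hT
  have hT10 : 10 ≤ T := hT2.trans hTT2
  have hlog : 0 < Real.log T := Real.log_pos (by linarith)
  have a1 := hT1 T hTT1 (2 * Real.pi * β / Real.log T) (by positivity)
    (le_of_eq (div_mul_cancel₀ _ hlog.ne'))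
  have a2 := hT2' T hTT2
  rw [N_eq hRH]
  push_cast
  have a3 : ∑ g ∈ TC.ordT T, (TC.mu g : ℝ) *
      (TC.kk (TC.ordT T) TC.mu (2 * Real.pi * β / Real.log T) g : ℝ) ≤
      ∑ g ∈ TC.ordT T, (TC.mu g : ℝ) + ∑ g ∈ TC.ordT T, (TC.mu g : ℝ) *
        (((TC.kk (TC.ordT T) TC.mu (2 * Real.pi * β / Real.log T) g - 1 : ℕ)) : ℝ) := by
    rw [← Finset.sum_add_distrib]
    apply Finset.sum_le_sum
    intro g _
    rw [← mul_one_add (TC.mu g : ℝ)]
    refine mul_le_mul_of_nonneg_left ?_ (Nat.cast_nonneg _)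
    have : TC.kk (TC.ordT T) TC.mu (2 * Real.pi * β / Real.log T) g ≤
        1 + (TC.kk (TC.ordT T) TC.mu (2 * Real.pi * β / Real.log T) g - 1) := by omega
    exact_mod_cast this
  refine a3.trans ((add_le_add a2 a1).trans (le_of_eq ?_))
  rw [hQ, hv, hE]
  ring

/-- **Close pairs of zeros, on the Riemann hypothesis.**  For `β ≥ 0` with
`53/60 - 79π²β²/600 > 0` and `D = 2 G(β) - 1.037 ≥ 1/8`, for every `ε > 0` and all large `T`,
`N(T; -β, β) ≤ (1 + v / (v + D²) + ε) (T/2π) log T` with `v = 0.1208`.  In particular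
`N(T; -1/200, 1/200)` and the sum of the squares of the multiplicities of the zeros (distinct
zeros) are at most `1.306 (T/2π) log T`. -/
theorem result (hRH : RiemannHypothesis) :
    (∀ β : ℝ, 0 ≤ β → 0 < 53 / 60 - 79 / 600 * Real.pi ^ 2 * β ^ 2 →
      1 / 8 ≤ 2 * G β - 1037 / 1000 → ∀ ε : ℝ, 0 < ε → ∃ T₀ : ℝ, ∀ T : ℝ, T₀ ≤ T →
      (N T (-β) β : ℝ) ≤ (1 + (151 / 1250) / (151 / 1250 + (2 * G β - 1037 / 1000) ^ 2) + ε) *
        (T / (2 * Real.pi) * Real.log T)) ∧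
    ∃ T₀ : ℝ, ∀ T : ℝ, T₀ ≤ T →
      (N T (-1 / 200) (1 / 200) : ℝ) ≤ 1306 / 1000 * (T / (2 * Real.pi) * Real.log T) ∧
      ∑ᶠ s ∈ zeros T, (mult s : ℝ) ^ 2 ≤ 1306 / 1000 * (T / (2 * Real.pi) * Real.log T) := by
  refine ⟨fun β hβ h1 h2 ε hε => bound hRH β hβ h1 h2 ε hε, ?_⟩
  have hpi1 : Real.pi ^ 2 ≤ 9.8697 := by
    have h1 := Real.pi_lt_d6
    have h0 := Real.pi_pos
    nlinarith
  have hpi0 : 0 ≤ Real.pi ^ 2 := sq_nonneg _
  have hG0 : (883300 / 1000000 : ℝ) ≤ 53 / 60 - 79 / 600 * Real.pi ^ 2 * (1 / 200) ^ 2 := by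
    nlinarith
  have hG : (780218 / 1000000 : ℝ) ≤ G (1 / 200) := by
    unfold G
    nlinarith
  have hG1 : G (1 / 200) ≤ 790 / 1000 := by
    unfold G
    have : 53 / 60 - 79 / 600 * Real.pi ^ 2 * (1 / 200) ^ 2 ≤ (53 / 60 : ℝ) := by nlinarith
    nlinarith
  set D := 2 * G (1 / 200) - 1037 / 1000 with hD
  have hD0 : (523436 / 1000000 : ℝ) ≤ D := by rw [hD]; linarith
  have hD2 : (273985 / 1000000 : ℝ) ≤ D ^ 2 := by nlinarith
  have hval : (151 / 1250 : ℝ) / (151 / 1250 + D ^ 2) ≤ 305999 / 1000000 := by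
    rw [div_le_iff₀ (by positivity)]
    nlinarith
  obtain ⟨T1, hT1⟩ := bound hRH (1 / 200) (by norm_num) (by linarith) (by rw [← hD]; linarith)
    (1 / 1000000) (by norm_num)
  refine ⟨max T1 10, fun T hT => ?_⟩
  have hTT : T1 ≤ T := (le_max_left _ _).trans hT
  have hT10 : 10 ≤ T := (le_max_right _ _).trans hT
  have hlog : 0 < Real.log T := Real.log_pos (by linarith)
  have h3 := hT1 T hTT
  have hpi := Real.pi_pos
  have hX : 0 ≤ T / (2 * Real.pi) * Real.log T := by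
    have : 0 ≤ T := by linarith
    positivity
  have h4 : (N T (-(1 / 200)) (1 / 200) : ℝ) ≤ 1306 / 1000 * (T / (2 * Real.pi) * Real.log T) := by
    refine h3.trans (mul_le_mul_of_nonneg_right ?_ hX)
    rw [← hD]
    linarith
  refine ⟨?_, (sq_le_N hRH T (1 / 200) (by linarith) (by norm_num)).trans h4⟩
  rw [show (-1 / 200 : ℝ) = -(1 / 200) by norm_num]
  exact h4

end Pool.Agent.Results.MP_103a5c_nt.ClosePairsTriple
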