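import Pool.Agent.W201.FW.Fin

/-!
# Far windows in the pair correlation of the zeta zeros, under the Riemann hypothesis

With `X = (T/2π) log T`: the number of pairs of ordinates in `(0, T]` whose difference lies in a
window `[α, β]` (in units of the mean spacing) is `(β - α) X` up to `(19/20 + 1/α) X`, and the
number of pairs at distance at most `β` is `2 β X` up to `(19/20 + 1/β) X`.
-/

open Complex

namespace Pool.Agent.Results.MP_103a5c_nt.FarWindows

/-- the nontrivial zeros of `ζ` with ordinate in `(0, T]` -/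
def zeros (T : ℝ) : Set ℂ :=
  {s : ℂ | 0 < s.re ∧ s.re < 1 ∧ 0 < s.im ∧ s.im ≤ T ∧ riemannZeta s = 0}

/-- the multiplicity of `s` as a zero of `ζ` -/
noncomputable def mult (s : ℂ) : ℕ := analyticOrderNatAt riemannZeta s

/-- `N(T; α, β)`: the number of ordered pairs of zeros (counted with multiplicity, the diagonal
included) with ordinates in `(0, T]` whose difference lies in `[2πα / log T, 2πβ / log T]` -/
noncomputable def N (T α β : ℝ) : ℕ :=
  ∑ᶠ s ∈ zeros T, ∑ᶠ s' ∈ {s' : ℂ | s' ∈ zeros T ∧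
    2 * Real.pi * α / Real.log T ≤ s.im - s'.im ∧ s.im - s'.im ≤ 2 * Real.pi * β / Real.log T},
      mult s * mult s'

lemma zeros_finite (T : ℝ) : (zeros T).Finite := H370.zeta_zeros_finite T

lemma N_eq (T α β : ℝ) : (N T α β : ℝ) =
    W201FW.NA T (2 * Real.pi * α / Real.log T) (2 * Real.pi * β / Real.log T) := by
  classical
  unfold N W201FW.NA H343.ZSide.Z0
  rw [finsum_mem_eq_finite_toFinset_sum _ (zeros_finite T)]
  push_cast
  apply Finset.sum_congr rfl
  intro s _
  have hfin : {s' : ℂ | s' ∈ zeros T ∧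
      2 * Real.pi * α / Real.log T ≤ s.im - s'.im ∧
      s.im - s'.im ≤ 2 * Real.pi * β / Real.log T}.Finite :=
    (zeros_finite T).subset fun _ h => h.1
  rw [finsum_mem_eq_finite_toFinset_sum _ hfin]
  push_cast
  rw [← Finset.sum_filter]
  apply Finset.sum_congr
  · ext s'
    rw [Set.Finite.mem_toFinset, Finset.mem_filter, Set.Finite.mem_toFinset]
    rfl
  · intro s' _
    rfl

lemma N2_eq (T β : ℝ) : W201FW.NA T (2 * Real.pi * (-β) / Real.log T)
    (2 * Real.pi * β / Real.log T) = H332B.N2 T (2 * Real.pi * β / Real.log T) := by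
  classical
  unfold W201FW.NA H332B.N2
  refine Finset.sum_congr rfl fun s _ => Finset.sum_congr rfl fun s' _ => ?_
  have e1 : 2 * Real.pi * (-β) / Real.log T = -(2 * Real.pi * β / Real.log T) := by ring
  rw [e1]
  simp only [abs_le]

/-- **Far windows in the pair correlation of the zeta zeros.**  On the Riemann hypothesis, with
`X = (T/2π) log T`: for `β > 0` and `T` large, `|N(T; -β, β) - 2βX| ≤ (19/20 + 1/β) X`; and for
`0 < α ≤ β` and `T` large, `|N(T; α, β) - (β - α) X| ≤ (19/20 + 1/α) X`. -/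
theorem result (hRH : RiemannHypothesis) :
    (∀ β : ℝ, 0 < β → ∃ T₀ : ℝ, ∀ T : ℝ, T₀ ≤ T →
      |(N T (-β) β : ℝ) - 2 * β * (T / (2 * Real.pi) * Real.log T)| ≤
        (19 / 20 + 1 / β) * (T / (2 * Real.pi) * Real.log T)) ∧
    (∀ α β : ℝ, 0 < α → α ≤ β → ∃ T₀ : ℝ, ∀ T : ℝ, T₀ ≤ T →
      |(N T α β : ℝ) - (β - α) * (T / (2 * Real.pi) * Real.log T)| ≤
        (19 / 20 + 1 / α) * (T / (2 * Real.pi) * Real.log T)) := by
  constructor
  · intro β hβ
    obtain ⟨T0, -, h⟩ := W201FW.symm hRH hβ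
    refine ⟨T0, fun T hT => ?_⟩
    rw [N_eq, N2_eq]
    exact h T hT
  · intro α β hα hαβ
    obtain ⟨T0, -, h⟩ := W201FW.window hRH hα hαβ
    refine ⟨T0, fun T hT => ?_⟩
    rw [N_eq]
    exact h T hT

end Pool.Agent.Results.MP_103a5c_nt.FarWindows
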