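import Pool.Agent.W200.HW

/-!
# Pairs of zeros closer than any multiple `β > 1/2` of the mean spacing, under RH

`N(T; 0, β) ≥ (1 + c) (T/2π) log T` for every `β > 1/2`, with `c = c(β) > 0`.
-/

open Complex

namespace Pool.Agent.Results.MP_103a5c_nt.HalfWindowPairs

/-- the nontrivial zeros of `ζ` with ordinate in `(0, T]` -/
def zeros (T : ℝ) : Set ℂ :=
  {s : ℂ | 0 < s.re ∧ s.re < 1 ∧ 0 < s.im ∧ s.im ≤ T ∧ riemannZeta s = 0}

/-- the multiplicity of `s` as a zero of `ζ` -/
noncomputable def mult (s : ℂ) : ℕ := analyticOrderNatAt riemannZeta s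

/-- `N(T; α, β)`: the number of ordered pairs of zeros (counted with multiplicity, the diagonal
included) with ordinates in `(0, T]` whose difference lies in `[2πα / log T, 2πβ / log T]` -/
noncomputable def N (T α β : ℝ) : ℕ :=
  ∑ᶠ s ∈ zeros T, ∑ᶠ s' ∈ {s' : ℂ | s' ∈ zeros T ∧
    2 * Real.pi * α / Real.log T ≤ s.im - s'.im ∧ s.im - s'.im ≤ 2 * Real.pi * β / Real.log T},
      mult s * mult s'

lemma zeros_eq (T : ℝ) : zeros T = SG.ZS T := by
  ext s
  exact ⟨fun ⟨a, b, c, d, e⟩ => ⟨e, a, b, c, d⟩, fun ⟨e, a, b, c, d⟩ => ⟨a, b, c, d, e⟩⟩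

/-- the condition of the window -/
def Win (T α β x y : ℝ) : Prop :=
  2 * Real.pi * α / Real.log T ≤ x - y ∧ x - y ≤ 2 * Real.pi * β / Real.log T

open Classical in
lemma N_eq (T α β : ℝ) : N T α β =
    ∑ s ∈ (SG.ZS_finite T).toFinset, ∑ s' ∈ (SG.ZS_finite T).toFinset,
      if Win T α β s.im s'.im then SG.zmult s * SG.zmult s' else 0 := by
  unfold N
  rw [zeros_eq, finsum_mem_eq_finite_toFinset_sum _ (SG.ZS_finite T)]
  apply Finset.sum_congr rfl
  intro s _
  have hfin : {s' : ℂ | s' ∈ SG.ZS T ∧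
      2 * Real.pi * α / Real.log T ≤ s.im - s'.im ∧
      s.im - s'.im ≤ 2 * Real.pi * β / Real.log T}.Finite :=
    (SG.ZS_finite T).subset fun _ h => h.1
  rw [finsum_mem_eq_finite_toFinset_sum _ hfin, ← Finset.sum_filter]
  apply Finset.sum_congr
  · ext s'
    rw [Set.Finite.mem_toFinset, Finset.mem_filter, Set.Finite.mem_toFinset]
    rfl
  · intro s' _
    rfl

/-- **Half the mean spacing in the pair correlation of the zeta zeros.**  On the Riemann hypothesis,
for every `β > 1/2` there is `c > 0` such that `N(T; 0, β) ≥ (1 + c) (T/2π) log T` for all large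
`T`: besides the diagonal, a positive proportion of pairs of zeros at distance at most `β` mean
spacings. -/
theorem result (hRH : RiemannHypothesis) (β : ℝ) (hβ : 1 / 2 < β) :
    ∃ c : ℝ, 0 < c ∧ ∃ T₀ : ℝ, ∀ T : ℝ, T₀ ≤ T →
      (1 + c) * (T / (2 * Real.pi) * Real.log T) ≤ (N T 0 β : ℝ) := by
  classical
  obtain ⟨c, hc, T0, hT0, h⟩ := W200.HW.main hRH β hβ
  refine ⟨c, hc, T0, fun T hT => ?_⟩
  have hlog : 0 < Real.log T := Real.log_pos (by linarith)
  have hpi := Real.pi_pos
  have e1 : ∀ d b : ℝ, d * (Real.log T / (2 * Real.pi)) ≤ b ↔ d ≤ 2 * Real.pi * b / Real.log T := by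
    intro d b
    rw [le_div_iff₀ hlog, mul_div_assoc', div_le_iff₀ (by positivity)]
    constructor <;> intro h <;> linarith
  have e2 : ∀ d : ℝ, 0 ≤ d * (Real.log T / (2 * Real.pi)) → 0 ≤ d := by
    intro d hd
    by_contra hneg
    push Not at hneg
    have : d * (Real.log T / (2 * Real.pi)) < 0 := mul_neg_of_neg_of_pos hneg (by positivity)
    linarith
  have f1 := h T hT (Win T 0 β) (by
    intro x y h1 h2
    have h3 := e2 _ h1
    have e4 : 2 * Real.pi * 0 / Real.log T = 0 := by simp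
    refine ⟨?_, (e1 _ _).mp h2⟩
    rw [e4]
    exact h3)
  rw [N_eq]
  exact f1

end Pool.Agent.Results.MP_103a5c_nt.HalfWindowPairs
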