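import Pool.Agent.W207.PF.All

/-!
# Pair correlation is equivalent to one-sided bounds for Montgomery's function, one window length

No hypothesis is assumed (on RH the function `F` below is the one of the problem).  Fix a length
`h > 0`, as large or as small as you like.  The pair correlation conjecture for all `α < β` is
equivalent to the upper bounds

`∫_a^{a+h} F(α, T) dα ≤ ν([a, a + h]) + o(1)`  for almost every real `a`,

where `ν` is the conjectured limit measure `min(|α|, 1) dα + δ_0`: lower bounds are not needed, and
only windows of one length have to be considered.  The conjecture in turn gives asymptotic formulas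
for the integrals over all intervals, and almost all zeros are simple and on the critical line.  All
this holds along every sequence of heights (every countably generated filter that tends to
infinity), and there is a version at a single height: upper bounds up to `δ` for the windows in a
compact interval imply `N(T; α₀, β₀)` up to `ε T log T`.

Idea of the proof.  Let `E` be the deviation of `F dα` from `ν`.  The Fejér mean of `E` smeared out
over windows of length `h`, `∫ (1 - |a|/λ)_+ E([a - h/2, a + h/2]) da`, is on the side of the zeros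
a sum of `λ sinc²(λx) · sin(πhx)/(πx)` over the pairs of zeros, which is at least `h λ` from the
pairs with `γ = γ'`, minus `C/λ`, and the same for `ν` up to `C/λ`; so the mean is
at least `-C/λ`.  If all `E([a - h/2, a + h/2])` are at most `o(1)` then they tend to `0` in the
mean, the pairs with `γ = γ'` are asymptotically only the trivial ones, so almost all zeros are
simple and on the line, and the pair counts against `sinc²(hx) b(x)` have the expected limit for
every continuous `b` of compact support.  This gives the lower bound for the number of pairs at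
distance at most `u` mean spacings, with a possible excess at the zeros of `sin(πhx)`, and by the
theorem that the lower half of the pair correlation conjecture implies the conjecture
(file `MP_f58427_nt/OneSidedNoRH`) there is no excess.
-/

open Filter Topology

namespace Pool.Agent.Results.MP_103a5c_nt.WindowsOfF

/-- the multiplicity of `s` as a zero of the Riemann zeta function -/
noncomputable def mult (s : ℂ) : ℕ := analyticOrderNatAt riemannZeta s

/-- the nontrivial zeros of `ζ` with ordinate in `(0, T]` -/
def zeros (T : ℝ) : Set ℂ := {s : ℂ | riemannZeta s = 0 ∧ 0 < s.re ∧ s.re < 1 ∧ 0 < s.im ∧ s.im ≤ T}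

/-- `N(T; α, β)`: the number of ordered pairs of zeros (with multiplicity, the diagonal included)
with ordinates in `(0, T]` whose difference lies in `[2πα / log T, 2πβ / log T]` -/
noncomputable def N (T α β : ℝ) : ℕ :=
  ∑ᶠ s ∈ zeros T, ∑ᶠ s' ∈ {s' : ℂ | s' ∈ zeros T ∧
    2 * Real.pi * α / Real.log T ≤ s.im - s'.im ∧ s.im - s'.im ≤ 2 * Real.pi * β / Real.log T},
      mult s * mult s'

/-- Montgomery's function
`F(α, T) = ((T/2π) log T)⁻¹ ∑_{0<γ,γ'≤T} T^{iα(γ-γ')} w(γ-γ')`, `w(u) = 4/(4+u²)` -/
noncomputable def F (T α : ℝ) : ℂ :=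
  (∑ᶠ s ∈ zeros T, ∑ᶠ s' ∈ zeros T, ((mult s : ℂ) * (mult s' : ℂ)) *
    ((T : ℂ) ^ (Complex.I * (α : ℂ) * ((s.im - s'.im : ℝ) : ℂ)) *
      ((4 / (4 + (s.im - s'.im) ^ 2) : ℝ) : ℂ))) / ((T / (2 * Real.pi) * Real.log T : ℝ) : ℂ)

/-- the number of zeros with ordinate in `(0, T]`, with multiplicity -/
noncomputable def Nall (T : ℝ) : ℕ := ∑ᶠ s ∈ zeros T, mult s

/-- the number of simple zeros on the critical line with ordinate in `(0, T]` -/
noncomputable def Nsc (T : ℝ) : ℕ := {s : ℂ | s ∈ zeros T ∧ s.re = 1 / 2 ∧ mult s = 1}.ncard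

/-- the set of zeros is finite -/
theorem finite_zeros (T : ℝ) : (zeros T).Finite := W207.PR.Zs_finite T

/-- `F` is real and nonnegative -/
theorem F_real {T : ℝ} (hT : 10 ≤ T) (α : ℝ) : (F T α).im = 0 ∧ 0 ≤ (F T α).re := by
  have h : F T α = (W207.PF.FF T α : ℂ) := W207.PF.FM_eq W207.PF.fd hT α
  rw [h]
  exact ⟨Complex.ofReal_im _, by rw [Complex.ofReal_re]; exact (W207.PF.inpF.pos T hT).2.2 α⟩

/-- the predicted count -/
noncomputable def pred (α β : ℝ) : ℝ :=
  (∫ u in α..β, (1 - (Real.sin (Real.pi * u) / (Real.pi * u)) ^ 2)) + if α ≤ 0 ∧ 0 ≤ β then 1 else 0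

/-- the predicted integral of `F` over `[a, b]`: the mass of `min(|α|, 1) dα + δ_0` -/
noncomputable def nu (a b : ℝ) : ℝ := (∫ α in a..b, min |α| 1) + if a < 0 ∧ 0 < b then 1 else 0

/-- the pair correlation conjecture, `T → ∞` along the filter `l` -/
def PairCorrelation (l : Filter ℝ) : Prop := ∀ α β : ℝ, α < β →
  Tendsto (fun T => (N T α β : ℝ) / (T / (2 * Real.pi) * Real.log T)) l (𝓝 (pred α β))

/-- upper bounds for the integrals of `F` over almost all windows of length `h` -/
def UpperWindows (l : Filter ℝ) (h : ℝ) : Prop := ∀ᵐ a : ℝ, ∀ ε : ℝ, 0 < ε → ∀ᶠ T in l,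
  ∫ α in a..(a + h), (F T α).re ≤ nu a (a + h) + ε

/-- **Pair correlation from upper bounds for the means of `F` over windows of one length.**

* Along every countably generated filter `l ≤ atTop` (for instance `l = atTop`, or a sequence of
  heights tending to infinity) and for every fixed `h > 0`, the pair correlation conjecture is
  equivalent to the upper bounds for the windows of length `h`.  It implies the asymptotic formula
  for all windows, and that almost all zeros are simple and on the critical line.
* (Single heights.)  For all `h, ε > 0` and `α₀ < β₀` there are `A` and `δ > 0` such that for every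
  large `T`: if `∫_a^{a+h} F ≤ ν + δ` for the `a` in `[-A, A]` with `a` and `a + h` not in
  `(-δ, δ)`, then `N(T; α₀, β₀) / ((T/2π) log T)` is within `ε` of the prediction, and at least
  `(1 - ε) Nall T` zeros up to height `T` are simple and on the line. -/
theorem result :
    (∀ (l : Filter ℝ) [l.IsCountablyGenerated], l ≤ atTop → ∀ h : ℝ, 0 < h →
      (PairCorrelation l ↔ UpperWindows l h) ∧
      (PairCorrelation l → (∀ a b : ℝ, a < b → a ≠ 0 → b ≠ 0 →
        Tendsto (fun T => ∫ α in a..b, (F T α).re) l (𝓝 (nu a b))) ∧
        Tendsto (fun T => (Nsc T : ℝ) / Nall T) l (𝓝 1))) ∧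
    ∀ h : ℝ, 0 < h → ∀ α₀ β₀ ε : ℝ, α₀ < β₀ → 0 < ε → ∃ A δ T₀ : ℝ, 0 < δ ∧ ∀ T : ℝ, T₀ ≤ T →
      (∀ a : ℝ, |a| ≤ A → δ ≤ |a| → δ ≤ |a + h| →
        ∫ α in a..(a + h), (F T α).re ≤ nu a (a + h) + δ) →
      |(N T α₀ β₀ : ℝ) / (T / (2 * Real.pi) * Real.log T) - pred α₀ β₀| ≤ ε ∧
        (1 - ε) * (Nall T : ℝ) ≤ Nsc T :=
  ⟨fun l _ hl h hh => W207.PF.finF W207.PU.inp W207.PF.inpF W207.PF.br W207.PF.fd l hl h hh,
    W207.PF.finS W207.PU.inp W207.PF.inpF W207.PF.br W207.PF.fd⟩

end Pool.Agent.Results.MP_103a5c_nt.WindowsOfF
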